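import Mathlib

set_option autoImplicit false

open MeasureTheory Filter Topology

namespace Pool.Agent.GM

/-- The letters `a`, `b` are coded as `false`, `true`.  A random substitution on `{a, b}`: to each
letter a probability mass function on words, with finitely many realisations, all nonempty. -/
def IsRandomSubstitution (θ : Bool → PMF (List Bool)) : Prop :=
  ∀ c : Bool, (θ c).support.Finite ∧ [] ∉ (θ c).support

/-- The law of `θ(w)`: every letter of `w` is replaced independently by a realisation. -/
noncomputable def substWord (θ : Bool → PMF (List Bool)) : List Bool → PMF (List Bool)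
  | [] => PMF.pure []
  | x :: w => (θ x).bind fun u => (substWord θ w).bind fun v => PMF.pure (u ++ v)

/-- The law of `θ^n(c)`, where `θ^(n+1)(c) = θ(θ^n(c))`. -/
noncomputable def substPow (θ : Bool → PMF (List Bool)) (c : Bool) : ℕ → PMF (List Bool)
  | 0 => PMF.pure [c]
  | n + 1 => (substPow θ c n).bind (substWord θ)

/-- The substitution matrix, `M β α = ∑ p_{α,i} |s_{α,i}|_β`. -/
noncomputable def substMatrix (θ : Bool → PMF (List Bool)) : Matrix Bool Bool ℝ :=
  fun β α => ∑' w : List Bool, (θ α w).toReal * (w.count β : ℝ)

/-- Primitivity: some power of the substitution matrix has all entries positive. -/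
def IsPrimitive (θ : Bool → PMF (List Bool)) : Prop :=
  ∃ k : ℕ, ∀ β α : Bool, 0 < (substMatrix θ ^ k) β α

/-- The number of occurrences of the word `v` in the word `w` (as a factor): the number of suffixes
of `w` that begin with `v`. -/
def occ (v w : List Bool) : ℕ := w.tails.countP fun t => v.isPrefixOf t

/-- The cylinder `[v]` at the origin. -/
def cylinder (v : List Bool) : Set (ℤ → Bool) :=
  {ξ | ∀ (i : ℕ) (hi : i < v.length), ξ i = v[i]}

/-- `μ` is the frequency measure of `θ`: a shift-invariant Borel probability measure on `{a,b}^ℤ`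
such that for each starting letter `c`, each nonempty word `v`, and all random words `W n`
distributed like `θ^n(c)`, the relative frequency of `v` in `W n` converges almost surely to
`μ [v]`. -/
def IsFrequencyMeasure (θ : Bool → PMF (List Bool)) (μ : Measure (ℤ → Bool)) : Prop :=
  IsProbabilityMeasure μ ∧ μ.map (fun (ξ : ℤ → Bool) (i : ℤ) => ξ (i + 1)) = μ ∧
  ∀ (c : Bool) (v : List Bool), v ≠ [] →
    ∀ (Ω : Type) (_ : MeasurableSpace Ω) (P : Measure Ω), IsProbabilityMeasure P →
      ∀ W : ℕ → Ω → List Bool,
        (∀ (n : ℕ) (w : List Bool), MeasurableSet {ω | W n ω = w}) →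
        (∀ (n : ℕ) (w : List Bool), P {ω | W n ω = w} = substPow θ c n w) →
        ∀ᵐ ω ∂P, Tendsto (fun n => (occ v (W n ω) : ℝ) / ((W n ω).length : ℝ)) atTop
          (𝓝 (μ (cylinder v)).toReal)

/-- Transition probabilities of the Parry measure (`τ` is the golden ratio). -/
noncomputable def parryTrans : Bool → Bool → ℝ
  | false, false => 1 / Real.goldenRatio
  | false, true => 1 / Real.goldenRatio ^ 2
  | true, false => 1
  | true, true => 0

/-- Initial distribution of the Parry measure. -/
noncomputable def parryInit : Bool → ℝ
  | false => Real.goldenRatio ^ 2 / (Real.goldenRatio ^ 2 + 1)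
  | true => 1 / (Real.goldenRatio ^ 2 + 1)

/-- `μ` is the Parry measure of the golden mean shift: the stationary Markov measure with the above
transition probabilities and initial distribution, on all finite windows `k, ..., k + n`. -/
def IsParryMeasure (μ : Measure (ℤ → Bool)) : Prop :=
  ∀ (k : ℤ) (n : ℕ) (u : ℤ → Bool),
    μ {ξ | ∀ i : ℤ, k ≤ i → i ≤ k + n → ξ i = u i} =
      ENNReal.ofReal (parryInit (u k) * ∏ j ∈ Finset.range n, parryTrans (u (k + j)) (u (k + j + 1)))

end Pool.Agent.GM
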