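import Mathlib
import Pool.Agent.GM.Defs

set_option autoImplicit false

open MeasureTheory Filter Topology

namespace Pool.Agent.GM

/-! ### arithmetic of the golden ratio -/

lemma phi_pos : 0 < Real.goldenRatio := Real.goldenRatio_pos

lemma phi_inv_add : 1 / Real.goldenRatio + 1 / Real.goldenRatio ^ 2 = 1 := by
  have h := Real.goldenRatio_sq
  have hp := phi_pos
  generalize Real.goldenRatio = x at h hp
  have hne : x ≠ 0 := hp.ne'
  field_simp
  linarith

lemma parryTrans_nonneg (x y : Bool) : 0 ≤ parryTrans x y := by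
  have hp := phi_pos
  cases x <;> cases y <;> simp only [parryTrans] <;> positivity

lemma parryInit_nonneg (x : Bool) : 0 ≤ parryInit x := by
  have hp := phi_pos
  cases x <;> simp only [parryInit] <;> positivity

lemma parryTrans_sum (x : Bool) : parryTrans x false + parryTrans x true = 1 := by
  cases x
  · simpa [parryTrans] using phi_inv_add
  · simp [parryTrans]

lemma parryInit_sum : parryInit false + parryInit true = 1 := by
  have hp := phi_pos
  simp only [parryInit]
  generalize Real.goldenRatio = x at hp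
  field_simp

lemma parry_rev (x y : Bool) : parryInit x * parryTrans x y = parryInit y * parryTrans y x := by
  have hp := phi_pos
  generalize hz : Real.goldenRatio = z at hp
  cases x <;> cases y <;> simp only [parryInit, parryTrans, hz] <;> field_simp

lemma parry_stat (y : Bool) :
    parryInit false * parryTrans false y + parryInit true * parryTrans true y = parryInit y := by
  rw [parry_rev false y, parry_rev true y, ← mul_add, parryTrans_sum, mul_one]

/-! ### construction of the Parry measure -/

/-- A probability measure on `Bool` with mass `q` at `true`. -/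
noncomputable def bm (q : ℝ) : Measure Bool :=
  ENNReal.ofReal (1 - q) • Measure.dirac false + ENNReal.ofReal q • Measure.dirac true

lemma bm_apply (q : ℝ) (s : Set Bool) :
    bm q s = ENNReal.ofReal (1 - q) * s.indicator 1 false + ENNReal.ofReal q * s.indicator 1 true := by
  simp [bm, Measure.dirac_apply' _ (MeasurableSpace.measurableSet_top : MeasurableSet[⊤] s)]

lemma bm_prob {q : ℝ} (h0 : 0 ≤ q) (h1 : q ≤ 1) : IsProbabilityMeasure (bm q) := by
  constructor
  rw [bm_apply]
  simp only [Set.indicator_univ, Pi.one_apply, mul_one]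
  rw [← ENNReal.ofReal_add (by linarith) h0]
  simp

/-- marginals -/
noncomputable def marg (i : ℤ) : Measure Bool :=
  if i = 0 then bm (parryInit true) else bm (parryTrans false true)

instance marg_prob (i : ℤ) : IsProbabilityMeasure (marg i) := by
  unfold marg
  split_ifs
  · exact bm_prob (parryInit_nonneg _) (by linarith [parryInit_sum, parryInit_nonneg false])
  · exact bm_prob (parryTrans_nonneg _ _)
      (by linarith [parryTrans_sum false, parryTrans_nonneg false false])

/-- one step of the chain with fresh randomness `c` -/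
def nxt (x c : Bool) : Bool := if x then false else c

lemma bm_nxt (x y : Bool) : bm (parryTrans false true) {c | nxt x c = y} =
    ENNReal.ofReal (parryTrans x y) := by
  have h := parryTrans_sum false
  have h2 : 1 - parryTrans false true = parryTrans false false := by linarith
  rw [bm_apply, h2]
  cases x <;> cases y <;> simp [nxt, Set.indicator]
  · rw [← ENNReal.ofReal_add (parryTrans_nonneg _ _) (parryTrans_nonneg _ _), h]
    simp [parryTrans]
  · simp [parryTrans]

lemma bm_init (y : Bool) : bm (parryInit true) {c | c = y} = ENNReal.ofReal (parryInit y) := by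
  have h := parryInit_sum
  have h2 : 1 - parryInit true = parryInit false := by linarith
  rw [bm_apply, h2]
  cases y <;> simp [Set.indicator]

/-- right half -/
def rgt (U : ℤ → Bool) : ℕ → Bool
  | 0 => U 0
  | n + 1 => nxt (rgt U n) (U (n + 1))

/-- left half -/
def lft (U : ℤ → Bool) : ℕ → Bool
  | 0 => U 0
  | n + 1 => nxt (lft U n) (U (-(n + 1)))

/-- the two-sided chain -/
def chain (U : ℤ → Bool) (i : ℤ) : Bool := if 0 ≤ i then rgt U i.toNat else lft U (-i).toNat

lemma chain_nat (U : ℤ → Bool) (n : ℕ) : chain U n = rgt U n := by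
  simp [chain]

lemma chain_neg (U : ℤ → Bool) (n : ℕ) : chain U (-n) = lft U n := by
  unfold chain
  split_ifs with h
  · have : n = 0 := by omega
    subst this
    rfl
  · simp

lemma measurable_rgt (n : ℕ) : Measurable fun U : ℤ → Bool => rgt U n := by
  induction n with
  | zero => exact measurable_pi_apply 0
  | succ n ih =>
    have h2 : Measurable fun p : Bool × Bool => nxt p.1 p.2 := measurable_of_countable _
    exact h2.comp (ih.prodMk (measurable_pi_apply _))

lemma measurable_lft (n : ℕ) : Measurable fun U : ℤ → Bool => lft U n := by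
  induction n with
  | zero => exact measurable_pi_apply 0
  | succ n ih =>
    have h2 : Measurable fun p : Bool × Bool => nxt p.1 p.2 := measurable_of_countable _
    exact h2.comp (ih.prodMk (measurable_pi_apply _))

lemma measurable_chain : Measurable chain := by
  rw [measurable_pi_iff]
  intro i
  unfold chain
  split_ifs
  · exact measurable_rgt _
  · exact measurable_lft _

/-- the constraint sets -/
def cons (u : ℤ → Bool) (i : ℤ) : Set Bool :=
  if i = 0 then {c | c = u 0} else if 0 < i then {c | nxt (u (i - 1)) c = u i}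
  else {c | nxt (u (i + 1)) c = u i}

lemma marg_cons (u : ℤ → Bool) (i : ℤ) : marg i (cons u i) =
    if i = 0 then ENNReal.ofReal (parryInit (u 0)) else if 0 < i then
      ENNReal.ofReal (parryTrans (u (i - 1)) (u i)) else ENNReal.ofReal (parryTrans (u (i + 1)) (u i)) := by
  unfold marg cons
  split_ifs
  · exact bm_init _
  · exact bm_nxt _ _
  · exact bm_nxt _ _

lemma rgt_iff (u U : ℤ → Bool) (b : ℕ) : (∀ n : ℕ, n ≤ b → rgt U n = u n) ↔
    ∀ n : ℕ, n ≤ b → U n ∈ cons u n := by
  induction b with
  | zero => simp [rgt, cons]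
  | succ b ih =>
    have h1 : ∀ P : ℕ → Prop, (∀ n, n ≤ b + 1 → P n) ↔ (∀ n, n ≤ b → P n) ∧ P (b + 1) := by
      intro P
      constructor
      · intro h
        exact ⟨fun n hn => h n (by omega), h _ le_rfl⟩
      · rintro ⟨h, h'⟩ n hn
        rcases Nat.lt_or_ge n (b + 1) with h2 | h2
        · exact h n (by omega)
        · have : n = b + 1 := by omega
          rw [this]; exact h'
    rw [h1, h1, ← ih]
    refine and_congr_right fun h => ?_
    have hb := h b le_rfl
    have hne : ((b + 1 : ℕ) : ℤ) ≠ 0 := by omega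
    have hpos : (0 : ℤ) < ((b + 1 : ℕ) : ℤ) := by omega
    have e : ((b + 1 : ℕ) : ℤ) - 1 = b := by push_cast; ring
    simp only [cons, hne, if_false, hpos, if_true, e, Set.mem_ofPred_eq, rgt, hb]
    push_cast
    rfl

lemma lft_iff (u U : ℤ → Bool) (b : ℕ) : (∀ n : ℕ, n ≤ b → lft U n = u (-n)) ↔
    ∀ n : ℕ, n ≤ b → U (-n) ∈ cons u (-n) := by
  induction b with
  | zero => simp [lft, cons]
  | succ b ih =>
    have h1 : ∀ P : ℕ → Prop, (∀ n, n ≤ b + 1 → P n) ↔ (∀ n, n ≤ b → P n) ∧ P (b + 1) := by
      intro P
      constructor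
      · intro h
        exact ⟨fun n hn => h n (by omega), h _ le_rfl⟩
      · rintro ⟨h, h'⟩ n hn
        rcases Nat.lt_or_ge n (b + 1) with h2 | h2
        · exact h n (by omega)
        · have : n = b + 1 := by omega
          rw [this]; exact h'
    rw [h1, h1, ← ih]
    refine and_congr_right fun h => ?_
    have hb := h b le_rfl
    have hne : -((b + 1 : ℕ) : ℤ) ≠ 0 := by omega
    have hpos : ¬ (0 : ℤ) < -((b + 1 : ℕ) : ℤ) := by omega
    have e : -((b + 1 : ℕ) : ℤ) + 1 = -b := by push_cast; ring
    simp only [cons, hne, if_false, hpos, e, Set.mem_ofPred_eq, lft, hb]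
    push_cast
    rfl

/-- product form of the probability of a window containing the origin -/
lemma window (u : ℤ → Bool) (a b : ℕ) :
    (Measure.infinitePi marg).map chain {ξ | ∀ i : ℤ, -(a : ℤ) ≤ i → i ≤ b → ξ i = u i} =
      ∏ i ∈ Finset.Icc (-(a : ℤ)) b, marg i (cons u i) := by
  have hms : MeasurableSet {ξ : ℤ → Bool | ∀ i : ℤ, -(a : ℤ) ≤ i → i ≤ b → ξ i = u i} := by
    have : {ξ : ℤ → Bool | ∀ i : ℤ, -(a : ℤ) ≤ i → i ≤ b → ξ i = u i} =
        Set.pi (Finset.Icc (-(a : ℤ)) b) (fun i => {u i}) := by
      ext ξ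
      simp [Set.mem_pi]
    rw [this]
    exact MeasurableSet.pi (Finset.countable_toSet _) (fun i _ => MeasurableSet.singleton _)
  rw [Measure.map_apply measurable_chain hms, ← Measure.infinitePi_pi marg
    (fun i _ => MeasurableSpace.measurableSet_top)]
  congr 1
  ext U
  simp only [Set.mem_preimage, Set.mem_ofPred_eq, Set.mem_pi, Finset.coe_Icc, Set.mem_Icc]
  have hr := rgt_iff u U b
  have hl := lft_iff u U a
  constructor
  · intro h i hi
    rcases le_or_gt 0 i with h0 | h0
    · obtain ⟨n, rfl⟩ := Int.eq_ofNat_of_zero_le h0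
      refine hr.1 (fun m hm => ?_) n (by omega)
      rw [← chain_nat]
      exact h m (by omega) (by omega)
    · obtain ⟨n, hn⟩ := Int.eq_ofNat_of_zero_le (by omega : 0 ≤ -i)
      have hi' : i = -(n : ℤ) := by omega
      rw [hi']
      refine hl.1 (fun m hm => ?_) n (by omega)
      rw [← chain_neg]
      exact h _ (by omega) (by omega)
  · intro h i h1 h2
    rcases le_or_gt 0 i with h0 | h0
    · obtain ⟨n, rfl⟩ := Int.eq_ofNat_of_zero_le h0
      rw [chain_nat]
      exact hr.2 (fun m hm => h m ⟨by omega, by omega⟩) n (by omega)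
    · obtain ⟨n, hn⟩ := Int.eq_ofNat_of_zero_le (by omega : 0 ≤ -i)
      have hi' : i = -(n : ℤ) := by omega
      rw [hi', chain_neg]
      exact hl.2 (fun m hm => h _ ⟨by omega, by omega⟩) n (by omega)

/-- the weight of a window -/
noncomputable def wgt (u : ℤ → Bool) (k : ℤ) (n : ℕ) : ℝ :=
  parryInit (u k) * ∏ j ∈ Finset.range n, parryTrans (u (k + j)) (u (k + j + 1))

lemma wgt_nonneg (u : ℤ → Bool) (k : ℤ) (n : ℕ) : 0 ≤ wgt u k n :=
  mul_nonneg (parryInit_nonneg _) (Finset.prod_nonneg fun _ _ => parryTrans_nonneg _ _)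

lemma wgt_succ (u : ℤ → Bool) (k : ℤ) (n : ℕ) :
    wgt u k (n + 1) = wgt u k n * parryTrans (u (k + n)) (u (k + n + 1)) := by
  unfold wgt
  rw [Finset.prod_range_succ, mul_assoc]

lemma wgt_left (u : ℤ → Bool) (k : ℤ) (n : ℕ) :
    wgt u k (n + 1) = parryTrans (u (k + 1)) (u k) * wgt u (k + 1) n := by
  unfold wgt
  rw [Finset.prod_range_succ']
  have h : ∀ j ∈ Finset.range n, parryTrans (u (k + ((j + 1 : ℕ) : ℤ))) (u (k + ((j + 1 : ℕ) : ℤ) + 1)) =
      parryTrans (u (k + 1 + j)) (u (k + 1 + j + 1)) := by
    intro j _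
    have e1 : k + ((j + 1 : ℕ) : ℤ) = k + 1 + j := by push_cast; ring
    rw [e1]
  rw [Finset.prod_congr rfl h]
  have := parry_rev (u k) (u (k + 1))
  simp only [Nat.cast_zero, add_zero]
  calc parryInit (u k) * ((∏ j ∈ Finset.range n, parryTrans (u (k + 1 + j)) (u (k + 1 + j + 1))) *
        parryTrans (u k) (u (k + 1)))
      = (parryInit (u k) * parryTrans (u k) (u (k + 1))) *
        (∏ j ∈ Finset.range n, parryTrans (u (k + 1 + j)) (u (k + 1 + j + 1))) := by ring
    _ = _ := by rw [this]; ring

lemma prod_window (u : ℤ → Bool) (a b : ℕ) :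
    ∏ i ∈ Finset.Icc (-(a : ℤ)) b, marg i (cons u i) = ENNReal.ofReal (wgt u (-(a : ℤ)) (a + b)) := by
  induction a with
  | zero =>
    induction b with
    | zero =>
      simp [wgt, marg_cons]
    | succ b ih =>
      have : Finset.Icc (-((0 : ℕ) : ℤ)) ((b + 1 : ℕ) : ℤ) =
          insert ((b + 1 : ℕ) : ℤ) (Finset.Icc (-((0 : ℕ) : ℤ)) (b : ℤ)) := by
        ext i
        simp only [Finset.mem_Icc, Finset.mem_insert]
        omega
      rw [this, Finset.prod_insert (by simp), ih, marg_cons]
      have hne : ((b + 1 : ℕ) : ℤ) ≠ 0 := by omega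
      have hpos : (0 : ℤ) < ((b + 1 : ℕ) : ℤ) := by omega
      rw [if_neg hne, if_pos hpos, ← add_assoc, wgt_succ, mul_comm,
        ENNReal.ofReal_mul (wgt_nonneg _ _ _)]
      have e1 : ((b + 1 : ℕ) : ℤ) - 1 = -((0 : ℕ) : ℤ) + ((0 + b : ℕ) : ℤ) := by push_cast; ring
      have e2 : ((b + 1 : ℕ) : ℤ) = -((0 : ℕ) : ℤ) + ((0 + b : ℕ) : ℤ) + 1 := by push_cast; ring
      rw [e1, ← e2]
  | succ a ih =>
    have : Finset.Icc (-((a + 1 : ℕ) : ℤ)) (b : ℤ) =
        insert (-((a + 1 : ℕ) : ℤ)) (Finset.Icc (-(a : ℤ)) (b : ℤ)) := by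
      ext i
      simp only [Finset.mem_Icc, Finset.mem_insert]
      omega
    rw [this, Finset.prod_insert (by simp), ih, marg_cons]
    have hne : -((a + 1 : ℕ) : ℤ) ≠ 0 := by omega
    have hpos : ¬ (0 : ℤ) < -((a + 1 : ℕ) : ℤ) := by omega
    rw [if_neg hne, if_neg hpos]
    have e1 : a + 1 + b = a + b + 1 := by ring
    have e2 : -((a + 1 : ℕ) : ℤ) + 1 = -(a : ℤ) := by push_cast; ring
    rw [e1, wgt_left, e2, ENNReal.ofReal_mul (parryTrans_nonneg _ _)]

/-- The Parry measure. -/
noncomputable def parry : Measure (ℤ → Bool) := (Measure.infinitePi marg).map chain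

instance : IsProbabilityMeasure parry :=
  Measure.isProbabilityMeasure_map measurable_chain.aemeasurable

/-- the window event -/
def win (u : ℤ → Bool) (k : ℤ) (n : ℕ) : Set (ℤ → Bool) := {ξ | ∀ i : ℤ, k ≤ i → i ≤ k + n → ξ i = u i}

lemma win_meas (u : ℤ → Bool) (k : ℤ) (n : ℕ) : MeasurableSet (win u k n) := by
  have : win u k n = Set.pi (Finset.Icc k (k + n)) (fun i => {u i}) := by
    ext ξ
    simp [Set.mem_pi, win]
  rw [this]
  exact MeasurableSet.pi (Finset.countable_toSet _) (fun i _ => MeasurableSet.singleton _)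

lemma parry_win_origin (u : ℤ → Bool) (k : ℤ) (n : ℕ) (h1 : k ≤ 0) (h2 : 0 ≤ k + n) :
    parry (win u k n) = ENNReal.ofReal (wgt u k n) := by
  obtain ⟨a, ha⟩ := Int.eq_ofNat_of_zero_le (by omega : 0 ≤ -k)
  obtain ⟨b, hb⟩ := Int.eq_ofNat_of_zero_le h2
  have hk : k = -(a : ℤ) := by omega
  have hn : n = a + b := by omega
  have := window u a b
  rw [prod_window] at this
  have e : -(a : ℤ) + ((a + b : ℕ) : ℤ) = b := by push_cast; ring
  unfold win parry
  rw [hk, hn, e]
  exact this

/-- modify the value of `u` at one place -/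
lemma parry_win_extend_right (u : ℤ → Bool) (k : ℤ) (n : ℕ)
    (h : ∀ v : ℤ → Bool, parry (win v k (n + 1)) = ENNReal.ofReal (wgt v k (n + 1))) :
    parry (win u k n) = ENNReal.ofReal (wgt u k n) := by
  set v : Bool → ℤ → Bool := fun y => Function.update u (k + n + 1) y with hv
  have hsplit : win u k n = win (v false) k (n + 1) ∪ win (v true) k (n + 1) := by
    ext ξ
    simp only [win, Set.mem_union, Set.mem_ofPred_eq]
    constructor
    · intro hξ
      have key : ∀ y, ξ (k + n + 1) = y → ∀ i : ℤ, k ≤ i → i ≤ k + ((n + 1 : ℕ) : ℤ) → ξ i = v y i := by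
        intro y hy i h1 h2
        by_cases hi : i = k + n + 1
        · rw [hi, hy]; simp [hv]
        · rw [hξ i h1 (by push_cast at h2; omega)]
          simp [hv, Function.update_of_ne hi]
      cases hy : ξ (k + n + 1)
      · exact Or.inl (key false hy)
      · exact Or.inr (key true hy)
    · rintro (h | h) i h1 h2
      · have := h i h1 (by push_cast; omega)
        rw [this]
        exact Function.update_of_ne (by omega) _ _
      · have := h i h1 (by push_cast; omega)
        rw [this]
        exact Function.update_of_ne (by omega) _ _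
  have hdisj : Disjoint (win (v false) k (n + 1)) (win (v true) k (n + 1)) := by
    rw [Set.disjoint_left]
    intro ξ h1 h2
    have e1 := h1 (k + n + 1) (by omega) (by push_cast; omega)
    have e2 := h2 (k + n + 1) (by omega) (by push_cast; omega)
    rw [e1] at e2
    simp [hv] at e2
  have hw : ∀ y, wgt (v y) k (n + 1) = wgt u k n * parryTrans (u (k + n)) y := by
    intro y
    rw [wgt_succ]
    have e1 : v y (k + n) = u (k + n) := Function.update_of_ne (by omega) _ _
    have e2 : v y (k + n + 1) = y := by simp [hv]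
    rw [e1, e2]
    congr 1
    unfold wgt
    have e3 : v y k = u k := Function.update_of_ne (by omega) _ _
    rw [e3]
    congr 1
    refine Finset.prod_congr rfl fun j hj => ?_
    rw [Finset.mem_range] at hj
    have e4 : v y (k + j) = u (k + j) := Function.update_of_ne (by omega) _ _
    have e5 : v y (k + j + 1) = u (k + j + 1) := Function.update_of_ne (by omega) _ _
    rw [e4, e5]
  rw [hsplit, measure_union hdisj (win_meas _ _ _), h, h, hw, hw,
    ← ENNReal.ofReal_add (mul_nonneg (wgt_nonneg _ _ _) (parryTrans_nonneg _ _))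
      (mul_nonneg (wgt_nonneg _ _ _) (parryTrans_nonneg _ _)), ← mul_add, parryTrans_sum, mul_one]

lemma parry_win_extend_left (u : ℤ → Bool) (k : ℤ) (n : ℕ)
    (h : ∀ v : ℤ → Bool, parry (win v (k - 1) (n + 1)) = ENNReal.ofReal (wgt v (k - 1) (n + 1))) :
    parry (win u k n) = ENNReal.ofReal (wgt u k n) := by
  set v : Bool → ℤ → Bool := fun y => Function.update u (k - 1) y with hv
  have hsplit : win u k n = win (v false) (k - 1) (n + 1) ∪ win (v true) (k - 1) (n + 1) := by
    ext ξ
    simp only [win, Set.mem_union, Set.mem_ofPred_eq]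
    constructor
    · intro hξ
      have key : ∀ y, ξ (k - 1) = y → ∀ i : ℤ, k - 1 ≤ i → i ≤ k - 1 + ((n + 1 : ℕ) : ℤ) →
          ξ i = v y i := by
        intro y hy i h1 h2
        by_cases hi : i = k - 1
        · rw [hi, hy]; simp [hv]
        · rw [hξ i (by omega) (by push_cast at h2; omega)]
          simp [hv, Function.update_of_ne hi]
      cases hy : ξ (k - 1)
      · exact Or.inl (key false hy)
      · exact Or.inr (key true hy)
    · rintro (h | h) i h1 h2
      · have := h i (by omega) (by push_cast; omega)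
        rw [this]
        exact Function.update_of_ne (by omega) _ _
      · have := h i (by omega) (by push_cast; omega)
        rw [this]
        exact Function.update_of_ne (by omega) _ _
  have hdisj : Disjoint (win (v false) (k - 1) (n + 1)) (win (v true) (k - 1) (n + 1)) := by
    rw [Set.disjoint_left]
    intro ξ h1 h2
    have e1 := h1 (k - 1) le_rfl (by push_cast; omega)
    have e2 := h2 (k - 1) le_rfl (by push_cast; omega)
    rw [e1] at e2
    simp [hv] at e2
  have hw : ∀ y, wgt (v y) (k - 1) (n + 1) = parryTrans (u k) y * wgt u k n := by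
    intro y
    rw [wgt_left]
    have e0 : k - 1 + 1 = k := by ring
    rw [e0]
    have e1 : v y k = u k := Function.update_of_ne (by omega) _ _
    have e2 : v y (k - 1) = y := by simp [hv]
    rw [e1, e2]
    congr 1
    unfold wgt
    rw [e1]
    congr 1
    refine Finset.prod_congr rfl fun j hj => ?_
    have e4 : v y (k + j) = u (k + j) := Function.update_of_ne (by omega) _ _
    have e5 : v y (k + j + 1) = u (k + j + 1) := Function.update_of_ne (by omega) _ _
    rw [e4, e5]
  rw [hsplit, measure_union hdisj (win_meas _ _ _), h, h, hw, hw,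
    ← ENNReal.ofReal_add (mul_nonneg (parryTrans_nonneg _ _) (wgt_nonneg _ _ _))
      (mul_nonneg (parryTrans_nonneg _ _) (wgt_nonneg _ _ _)), ← add_mul, parryTrans_sum, one_mul]

lemma parry_win (u : ℤ → Bool) (k : ℤ) (n : ℕ) :
    parry (win u k n) = ENNReal.ofReal (wgt u k n) := by
  -- extend to the right until the window reaches the origin
  have hR : ∀ d : ℕ, ∀ (u : ℤ → Bool) (k : ℤ) (n : ℕ), k ≤ 0 → -(d : ℤ) ≤ k + n →
      parry (win u k n) = ENNReal.ofReal (wgt u k n) := by
    intro d
    induction d with
    | zero =>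
      intro u k n hk hd
      exact parry_win_origin u k n hk (by simpa using hd)
    | succ d ih =>
      intro u k n hk hd
      exact parry_win_extend_right u k n fun v => ih v k (n + 1) hk (by push_cast at hd ⊢; omega)
  have hL : ∀ d : ℕ, ∀ (u : ℤ → Bool) (k : ℤ) (n : ℕ), k ≤ d →
      parry (win u k n) = ENNReal.ofReal (wgt u k n) := by
    intro d
    induction d with
    | zero =>
      intro u k n hk
      exact hR (-(k + n)).toNat u k n (by simpa using hk) (by omega)
    | succ d ih =>
      intro u k n hk
      exact parry_win_extend_left u k n fun v => ih v (k - 1) (n + 1) (by push_cast at hk ⊢; omega)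
  exact hL k.toNat u k n (by omega)

theorem parry_isParry : IsParryMeasure parry := fun k n u => parry_win u k n

end Pool.Agent.GM
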