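import Mathlib
import Pool.Agent.GM.Parry

set_option autoImplicit false

open MeasureTheory Filter Topology

namespace Pool.Agent.GM

/-- Two probability measures on `ℤ → Bool` which agree on windows are equal. -/
lemma ext_of_windows (μ ν : Measure (ℤ → Bool)) [IsFiniteMeasure μ] [IsFiniteMeasure ν]
    (h : ∀ u k n, μ (win u k n) = ν (win u k n)) : μ = ν := by
  have hIcc : ∀ (k : ℤ) (n : ℕ), μ.map (Finset.Icc k (k + n)).restrict =
      ν.map (Finset.Icc k (k + n)).restrict := by
    intro k n
    apply Measure.ext_of_singleton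
    intro f
    rw [Measure.map_apply (Finset.measurable_restrict _) (MeasurableSet.singleton _),
      Measure.map_apply (Finset.measurable_restrict _) (MeasurableSet.singleton _)]
    classical
    set u : ℤ → Bool := fun i => if hi : i ∈ Finset.Icc k (k + n) then f ⟨i, hi⟩ else false with hu
    have : (Finset.Icc k (k + (n : ℤ))).restrict (π := fun _ => Bool) ⁻¹' {f} = win u k n := by
      ext ξ
      constructor
      · intro hξ i h1 h2
        have hi : i ∈ Finset.Icc k (k + (n : ℤ)) := Finset.mem_Icc.2 ⟨h1, h2⟩
        have := congrFun hξ ⟨i, hi⟩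
        simp only [Finset.restrict] at this
        rw [this, hu]
        simp only [hi, dif_pos]
      · intro hξ
        funext ⟨i, hi⟩
        have h12 := Finset.mem_Icc.1 hi
        have := hξ i h12.1 h12.2
        simp only [Finset.restrict]
        rw [this, hu]
        simp only [hi, dif_pos]
    rw [this, h]
  have hall : ∀ I : Finset ℤ, μ.map I.restrict = ν.map I.restrict := by
    intro I
    obtain ⟨k, n, hk⟩ : ∃ (k : ℤ) (n : ℕ), I ⊆ Finset.Icc k (k + n) := by
      obtain ⟨N, hN⟩ : ∃ N : ℕ, ∀ i ∈ I, |i| ≤ N := by
        refine ⟨I.sup fun i => i.natAbs, fun i hi => ?_⟩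
        have := Finset.le_sup (f := fun i : ℤ => i.natAbs) hi
        rw [← Int.natCast_natAbs]
        exact_mod_cast this
      refine ⟨-N, 2 * N, fun i hi => ?_⟩
      have := abs_le.1 (hN i hi)
      rw [Finset.mem_Icc]
      constructor
      · exact this.1
      · push_cast; linarith [this.2]
    have e : I.restrict (π := fun _ => Bool) = Finset.restrict₂ hk ∘ (Finset.Icc k (k + (n : ℤ))).restrict := rfl
    rw [e, ← Measure.map_map (Finset.measurable_restrict₂ hk) (Finset.measurable_restrict _),
      ← Measure.map_map (Finset.measurable_restrict₂ hk) (Finset.measurable_restrict _), hIcc]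
  have h1 : IsProjectiveLimit μ (fun I : Finset ℤ => ν.map I.restrict) := hall
  have h2 : IsProjectiveLimit ν (fun I : Finset ℤ => ν.map I.restrict) := fun I => rfl
  exact h1.unique h2

lemma shift_meas : Measurable (fun (ξ : ℤ → Bool) (i : ℤ) => ξ (i + 1)) := by
  rw [measurable_pi_iff]
  intro i
  exact measurable_pi_apply _

theorem shift_inv (μ : Measure (ℤ → Bool)) [IsProbabilityMeasure μ] (h : IsParryMeasure μ) :
    μ.map (fun (ξ : ℤ → Bool) (i : ℤ) => ξ (i + 1)) = μ := by
  have : IsProbabilityMeasure (μ.map (fun (ξ : ℤ → Bool) (i : ℤ) => ξ (i + 1))) :=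
    Measure.isProbabilityMeasure_map shift_meas.aemeasurable
  apply ext_of_windows
  intro u k n
  rw [Measure.map_apply shift_meas (win_meas _ _ _)]
  have : (fun (ξ : ℤ → Bool) (i : ℤ) => ξ (i + 1)) ⁻¹' (win u k n) =
      win (fun i => u (i - 1)) (k + 1) n := by
    ext ξ
    simp only [Set.mem_preimage, win, Set.mem_ofPred_eq]
    constructor
    · intro hξ i h1 h2
      have := hξ (i - 1) (by omega) (by omega)
      simpa using this
    · intro hξ i h1 h2
      have := hξ (i + 1) (by omega) (by omega)
      simpa using this
  rw [this]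
  have e1 := h (k + 1) n (fun i => u (i - 1))
  have e2 := h k n u
  unfold win
  rw [e1, e2]
  congr 1
  have : k + 1 - 1 = k := by ring
  simp only [this]
  congr 1
  refine Finset.prod_congr rfl fun j _ => ?_
  have a1 : k + 1 + (j : ℤ) - 1 = k + j := by ring
  have a2 : k + 1 + (j : ℤ) + 1 - 1 = k + j + 1 := by ring
  rw [a1, a2]

/-- list form of the weights -/
noncomputable def lw : Bool → List Bool → ℝ
  | _, [] => 1
  | x, y :: l => parryTrans x y * lw y l

lemma lw_nonneg (x : Bool) (l : List Bool) : 0 ≤ lw x l := by
  induction l generalizing x with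
  | nil => simp [lw]
  | cons y l ih => exact mul_nonneg (parryTrans_nonneg _ _) (ih y)

lemma parryTrans_le_one (x y : Bool) : parryTrans x y ≤ 1 := by
  have h := parryTrans_sum x
  have h1 := parryTrans_nonneg x false
  have h2 := parryTrans_nonneg x true
  cases y <;> linarith

lemma lw_le_one (x : Bool) (l : List Bool) : lw x l ≤ 1 := by
  induction l generalizing x with
  | nil => simp [lw]
  | cons y l ih => exact mul_le_one₀ (parryTrans_le_one _ _) (lw_nonneg _ _) (ih y)

lemma prod_lw (x : Bool) (l : List Bool) :
    ∏ j ∈ Finset.range l.length, parryTrans ((x :: l).getD j false) ((x :: l).getD (j + 1) false) =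
      lw x l := by
  induction l generalizing x with
  | nil => simp [lw]
  | cons y l ih =>
    rw [List.length_cons, Finset.prod_range_succ', lw, ← ih y, mul_comm]
    rfl

lemma cylinder_eq (x : Bool) (l : List Bool) :
    cylinder (x :: l) = win (fun i => (x :: l).getD i.toNat false) 0 l.length := by
  ext ξ
  simp only [cylinder, win, Set.mem_ofPred_eq]
  constructor
  · intro h i h1 h2
    obtain ⟨n, rfl⟩ := Int.eq_ofNat_of_zero_le h1
    have hn : n < (x :: l).length := by simp; omega
    rw [h n hn]
    simp [List.getD_eq_getElem?_getD, List.getElem?_eq_getElem hn]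
  · intro h i hi
    have := h i (by omega) (by simp at hi; omega)
    rw [this]
    simp [List.getD_eq_getElem?_getD, List.getElem?_eq_getElem hi]

lemma cylinder_parry (μ : Measure (ℤ → Bool)) (h : IsParryMeasure μ) (x : Bool) (l : List Bool) :
    (μ (cylinder (x :: l))).toReal = parryInit x * lw x l := by
  have := h 0 l.length (fun i => (x :: l).getD i.toNat false)
  rw [cylinder_eq]
  unfold win
  rw [this, ENNReal.toReal_ofReal]
  · congr 1
    rw [← prod_lw]
    refine Finset.prod_congr rfl fun j _ => ?_
    have e1 : (0 + (j : ℤ)).toNat = j := by omega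
    have e2 : (0 + (j : ℤ) + 1).toNat = j + 1 := by omega
    simp only [e1, e2]
  · exact mul_nonneg (parryInit_nonneg _) (Finset.prod_nonneg fun _ _ => parryTrans_nonneg _ _)

end Pool.Agent.GM
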