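import Mathlib
import Pool.Agent.GM.Parry2

set_option autoImplicit false

open MeasureTheory Filter Topology ENNReal

namespace Pool.Agent.GM

/-- Expectation of a nonnegative function. -/
noncomputable def E {α : Type} (Q : PMF α) (F : α → ℝ≥0∞) : ℝ≥0∞ := ∑' w, Q w * F w

lemma E_pure {α : Type} (a : α) (F : α → ℝ≥0∞) : E (PMF.pure a) F = F a := by
  unfold E
  rw [tsum_eq_single a]
  · simp
  · intro b hb
    simp [PMF.pure_apply, hb]

lemma E_bind {α β : Type} (Q : PMF α) (κ : α → PMF β) (F : β → ℝ≥0∞) :
    E (Q.bind κ) F = E Q (fun a => E (κ a) F) := by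
  unfold E
  simp_rw [PMF.bind_apply, ← ENNReal.tsum_mul_right, ← ENNReal.tsum_mul_left]
  rw [ENNReal.tsum_comm]
  simp_rw [mul_assoc]

lemma E_swap {α β : Type} (Q : PMF α) (R : PMF β) (F : α → β → ℝ≥0∞) :
    E Q (fun a => E R (fun b => F a b)) = E R (fun b => E Q (fun a => F a b)) := by
  unfold E
  simp_rw [← ENNReal.tsum_mul_left]
  rw [ENNReal.tsum_comm]
  congr 1; ext b; congr 1; ext a
  ring

lemma E_mono {α : Type} (Q : PMF α) {F G : α → ℝ≥0∞} (h : ∀ a ∈ Q.support, F a ≤ G a) :
    E Q F ≤ E Q G := by
  unfold E
  refine ENNReal.tsum_le_tsum fun a => ?_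
  by_cases ha : a ∈ Q.support
  · exact mul_le_mul_right (h a ha) _
  · rw [PMF.mem_support_iff, not_not] at ha
    simp [ha]

lemma E_congr {α : Type} (Q : PMF α) {F G : α → ℝ≥0∞} (h : ∀ a ∈ Q.support, F a = G a) :
    E Q F = E Q G :=
  le_antisymm (E_mono Q fun a ha => (h a ha).le) (E_mono Q fun a ha => (h a ha).ge)

lemma E_add {α : Type} (Q : PMF α) (F G : α → ℝ≥0∞) :
    E Q (fun a => F a + G a) = E Q F + E Q G := by
  unfold E
  simp_rw [mul_add]
  exact ENNReal.tsum_add

lemma E_const {α : Type} (Q : PMF α) (c : ℝ≥0∞) : E Q (fun _ => c) = c := by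
  unfold E
  rw [ENNReal.tsum_mul_right, Q.tsum_coe, one_mul]

lemma E_mul {α : Type} (Q : PMF α) (c : ℝ≥0∞) (F : α → ℝ≥0∞) :
    E Q (fun a => c * F a) = c * E Q F := by
  unfold E
  rw [← ENNReal.tsum_mul_left]
  congr 1; ext a; ring

/-! ### the substitution -/

/-- the Bernoulli choice -/
noncomputable def coin : PMF Bool :=
  PMF.ofFintype (fun c => ENNReal.ofReal (parryTrans false c)) (by
    rw [Fintype.sum_bool, ← ENNReal.ofReal_add (parryTrans_nonneg _ _) (parryTrans_nonneg _ _),
      add_comm, parryTrans_sum]
    simp)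

/-- the two words -/
def wd (c : Bool) : List Bool := if c then [false, true] else [false]

/-- the law of the image of a letter -/
noncomputable def blk : PMF (List Bool) := coin.bind fun c => PMF.pure (wd c)

/-- the random substitution `a, b ↦ a` (prob. `1/τ`), `a, b ↦ ab` (prob. `1/τ²`) -/
noncomputable def theta : Bool → PMF (List Bool) := fun _ => blk

/-- probability of `ab` -/
noncomputable def p : ℝ := parryTrans false true

lemma p_nonneg : 0 ≤ p := parryTrans_nonneg _ _
lemma one_sub_p : 1 - p = parryTrans false false := by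
  have := parryTrans_sum false
  unfold p
  linarith
lemma p_le_one : p ≤ 1 := parryTrans_le_one _ _
lemma p_pos : 0 < p := by
  have := phi_pos
  simp only [p, parryTrans]
  positivity
lemma p_lt_one : p < 1 := by
  have h := one_sub_p
  have h2 := phi_pos
  have : 0 < parryTrans false false := by
    simp only [parryTrans]
    positivity
  linarith

/-- The averaging operator of one block. -/
noncomputable def T (F : List Bool → ℝ≥0∞) (v : List Bool) : ℝ≥0∞ :=
  ENNReal.ofReal (1 - p) * F (false :: v) + ENNReal.ofReal p * F (false :: true :: v)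

lemma E_blk (F : List Bool → ℝ≥0∞) :
    E blk F = ENNReal.ofReal (1 - p) * F [false] + ENNReal.ofReal p * F [false, true] := by
  unfold blk
  rw [E_bind]
  simp_rw [E_pure]
  unfold E coin
  rw [tsum_fintype, Fintype.sum_bool, PMF.ofFintype_apply, PMF.ofFintype_apply, one_sub_p, add_comm]
  rfl

lemma E_subst_cons (x : Bool) (w : List Bool) (F : List Bool → ℝ≥0∞) :
    E (substWord theta (x :: w)) F = E (substWord theta w) (T F) := by
  rw [substWord, E_bind]
  simp_rw [E_bind, E_pure]
  rw [E_swap]
  unfold theta
  congr 1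
  ext v
  rw [E_blk]
  rfl

lemma E_subst_nil (F : List Bool → ℝ≥0∞) : E (substWord theta []) F = F [] := by
  rw [substWord, E_pure]

/-- admissible words -/
inductive Good : List Bool → Prop
  | nil : Good []
  | a (w : List Bool) : Good w → Good (false :: w)
  | ab (w : List Bool) : Good w → Good (false :: true :: w)

lemma mem_support_cons {x : Bool} {w ω : List Bool} (h : ω ∈ (substWord theta (x :: w)).support) :
    ∃ v ∈ (substWord theta w).support, ω = false :: v ∨ ω = false :: true :: v := by
  rw [substWord, PMF.mem_support_bind_iff] at h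
  obtain ⟨u, hu, h⟩ := h
  rw [PMF.mem_support_bind_iff] at h
  obtain ⟨v, hv, h⟩ := h
  rw [PMF.mem_support_pure_iff] at h
  refine ⟨v, hv, ?_⟩
  unfold theta blk at hu
  rw [PMF.mem_support_bind_iff] at hu
  obtain ⟨c, -, hu⟩ := hu
  rw [PMF.mem_support_pure_iff] at hu
  rw [h, hu]
  cases c
  · left; rfl
  · right; rfl

lemma good_of_mem {w ω : List Bool} (h : ω ∈ (substWord theta w).support) : Good ω := by
  induction w generalizing ω with
  | nil =>
    rw [substWord, PMF.mem_support_pure_iff] at h
    rw [h]; exact Good.nil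
  | cons x w ih =>
    obtain ⟨v, hv, h | h⟩ := mem_support_cons h
    · rw [h]; exact Good.a _ (ih hv)
    · rw [h]; exact Good.ab _ (ih hv)

lemma count_of_mem {w ω : List Bool} (h : ω ∈ (substWord theta w).support) :
    ω.count false = w.length ∧ ω.count true ≤ w.length := by
  induction w generalizing ω with
  | nil =>
    rw [substWord, PMF.mem_support_pure_iff] at h
    rw [h]; simp
  | cons x w ih =>
    obtain ⟨v, hv, h | h⟩ := mem_support_cons h
    · obtain ⟨h1, h2⟩ := ih hv
      rw [h]
      simp only [List.count_cons, List.length_cons]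
      simp
      omega
    · obtain ⟨h1, h2⟩ := ih hv
      rw [h]
      simp only [List.count_cons, List.length_cons]
      simp
      omega

lemma length_eq (ω : List Bool) : ω.length = ω.count false + ω.count true := by
  induction ω with
  | nil => simp
  | cons x ω ih =>
    rw [List.length_cons, ih]
    cases x
    · rw [List.count_cons_self, List.count_cons_of_ne (by simp)]; omega
    · rw [List.count_cons_self, List.count_cons_of_ne (by simp)]; omega

/-! ### occurrences -/

/-- indicator that `ω` begins with `v` -/
def S (v ω : List Bool) : ℝ := if v.isPrefixOf ω then 1 else 0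

lemma S_nonneg (v ω : List Bool) : 0 ≤ S v ω := by unfold S; split_ifs <;> norm_num
lemma S_le_one (v ω : List Bool) : S v ω ≤ 1 := by unfold S; split_ifs <;> norm_num
lemma S_sq (v ω : List Bool) : S v ω ^ 2 = S v ω := by unfold S; split_ifs <;> norm_num

/-- number of occurrences as a real -/
noncomputable def N (v ω : List Bool) : ℝ := (occ v ω : ℝ)

lemma N_cons (v : List Bool) (x : Bool) (ω : List Bool) : N v (x :: ω) = N v ω + S v (x :: ω) := by
  unfold N occ S
  rw [List.tails_cons, List.countP_cons]
  push_cast
  split_ifs <;> simp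

lemma N_nil {v : List Bool} (hv : v ≠ []) : N v [] = 0 := by
  cases v with
  | nil => exact absurd rfl hv
  | cons x l => simp [N, occ]

lemma S_cons_cons (x y : Bool) (l ω : List Bool) :
    S (x :: l) (y :: ω) = if x = y then S l ω else 0 := by
  unfold S
  by_cases h : x = y <;> simp [h]

lemma S_cons_nil (x : Bool) (l : List Bool) : S (x :: l) [] = 0 := by simp [S]

/-- every occurrence of `v` is at the start, or preceded by `a`, or preceded by `b` -/
lemma N_split (x : Bool) (l ω : List Bool) :
    N (x :: l) ω = N (false :: x :: l) ω + N (true :: x :: l) ω + S (x :: l) ω := by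
  induction ω with
  | nil => rw [N_nil (by simp), N_nil (by simp), N_nil (by simp), S_cons_nil]; ring
  | cons y ω ih =>
    rw [N_cons, N_cons, N_cons, ih, S_cons_cons false, S_cons_cons true]
    cases y <;> simp <;> ring

lemma good_S_true {ω : List Bool} (h : Good ω) (l : List Bool) : S (true :: l) ω = 0 := by
  cases h with
  | nil => exact S_cons_nil _ _
  | a w _ => rw [S_cons_cons]; simp
  | ab w _ => rw [S_cons_cons]; simp

lemma good_N_bb {ω : List Bool} (h : Good ω) (l : List Bool) : N (true :: true :: l) ω = 0 := by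
  induction h with
  | nil => exact N_nil (by simp)
  | a w hw ih => rw [N_cons, ih, S_cons_cons]; simp
  | ab w hw ih =>
    rw [N_cons, N_cons, ih, S_cons_cons, S_cons_cons, good_S_true hw]; simp

lemma N_a_count (ω : List Bool) : N [false] ω = ω.count false := by
  induction ω with
  | nil => rw [N_nil (by simp)]; simp
  | cons x ω ih =>
    rw [N_cons, ih, S_cons_cons]
    cases x <;> simp [S]

lemma N_b_count (ω : List Bool) : N [true] ω = ω.count true := by
  induction ω with
  | nil => rw [N_nil (by simp)]; simp
  | cons x ω ih =>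
    rw [N_cons, ih, S_cons_cons]
    cases x <;> simp [S]

end Pool.Agent.GM
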