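import Mathlib
import Pool.Agent.GM.Expect

set_option autoImplicit false

open MeasureTheory Filter Topology ENNReal

namespace Pool.Agent.GM

lemma T_ofReal (f : List Bool → ℝ) (hf : ∀ v, 0 ≤ f v) (v : List Bool) :
    T (fun ω => ENNReal.ofReal (f ω)) v =
      ENNReal.ofReal ((1 - p) * f (false :: v) + p * f (false :: true :: v)) := by
  have h1 : 0 ≤ 1 - p := by linarith [p_le_one]
  have h2 := p_nonneg
  unfold T
  rw [ENNReal.ofReal_add (mul_nonneg h1 (hf _)) (mul_nonneg h2 (hf _)),
    ENNReal.ofReal_mul h1, ENNReal.ofReal_mul h2]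

/-- abstract second moment bound for a functional whose increments are centred -/
lemma second_moment (D : ℕ → List Bool → ℝ)
    (h : ∀ m v, Good v → (1 - p) * D (m + 1) (false :: v) ^ 2 + p * D (m + 1) (false :: true :: v) ^ 2 ≤
      D m v ^ 2 + 1) (w : List Bool) :
    E (substWord theta w) (fun ω => ENNReal.ofReal (D w.length ω ^ 2)) ≤
      ENNReal.ofReal (D 0 [] ^ 2 + w.length) := by
  induction w with
  | nil => rw [E_subst_nil]; simp
  | cons x w ih =>
    rw [E_subst_cons]
    calc E (substWord theta w) (T fun ω => ENNReal.ofReal (D (x :: w).length ω ^ 2))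
        ≤ E (substWord theta w) (fun ω => ENNReal.ofReal (D w.length ω ^ 2) + 1) := by
          refine E_mono _ fun v hv => ?_
          rw [T_ofReal _ (fun _ => sq_nonneg _), ← ENNReal.ofReal_one,
            ← ENNReal.ofReal_add (sq_nonneg _) zero_le_one]
          exact ENNReal.ofReal_le_ofReal (h _ v (good_of_mem hv))
      _ = E (substWord theta w) (fun ω => ENNReal.ofReal (D w.length ω ^ 2)) + 1 := by
          rw [E_add, E_const]
      _ ≤ ENNReal.ofReal (D 0 [] ^ 2 + w.length) + 1 := by gcongr
      _ = ENNReal.ofReal (D 0 [] ^ 2 + (x :: w).length) := by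
          rw [← ENNReal.ofReal_one, ← ENNReal.ofReal_add (by positivity) zero_le_one]
          congr 1
          rw [List.length_cons]; push_cast; ring

/-- limit constants (relative to the number of blocks) -/
noncomputable def cst : List Bool → ℝ
  | [] => 0
  | x :: l => (1 + p) * (parryInit x * lw x l)

lemma phi_p : p = 1 / Real.goldenRatio ^ 2 := rfl

lemma init_false : (1 + p) * parryInit false = 1 := by
  have h := phi_pos
  rw [phi_p]
  simp only [parryInit]
  generalize Real.goldenRatio = z at h
  field_simp

lemma init_true : (1 + p) * parryInit true = p := by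
  have h := phi_pos
  rw [phi_p]
  simp only [parryInit]
  generalize Real.goldenRatio = z at h
  field_simp

lemma cst_a : cst [false] = 1 := by simp [cst, lw, init_false]
lemma cst_b : cst [true] = p := by simp [cst, lw, init_true]

lemma cst_ba (l : List Bool) : cst (true :: false :: l) = p * cst (false :: l) := by
  simp only [cst, lw]
  have h1 := init_true
  have h2 := init_false
  have : parryTrans true false = 1 := rfl
  rw [this]
  linear_combination (lw false l) * h1 - p * lw false l * h2

lemma cst_aa (l : List Bool) : cst (false :: false :: l) = (1 - p) * cst (false :: l) := by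
  simp only [cst, lw]
  rw [← one_sub_p]
  ring

lemma cst_ab (l : List Bool) : cst (false :: true :: l) = cst (true :: l) := by
  simp only [cst, lw]
  have h1 := init_true
  have h2 := init_false
  have : parryTrans false true = p := rfl
  rw [this]
  linear_combination p * lw true l * h2 - lw true l * h1

lemma cst_bb (l : List Bool) : cst (true :: true :: l) = 0 := by
  simp [cst, lw, parryTrans]

/-- second moment statement for the word `v` -/
def MB (v : List Bool) : Prop := ∃ C : ℝ, 0 ≤ C ∧ ∀ w : List Bool,
  E (substWord theta w) (fun ω => ENNReal.ofReal ((N v ω - cst v * w.length) ^ 2)) ≤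
    ENNReal.ofReal (C * (w.length + 1))

lemma MB_a : MB [false] := by
  refine ⟨0, le_rfl, fun w => ?_⟩
  have : E (substWord theta w) (fun ω => ENNReal.ofReal ((N [false] ω - cst [false] * w.length) ^ 2)) =
      E (substWord theta w) (fun _ => 0) := by
    refine E_congr _ fun ω hω => ?_
    rw [N_a_count, (count_of_mem hω).1, cst_a]
    simp
  rw [this, E_const]
  exact zero_le

lemma MB_b : MB [true] := by
  refine ⟨1, zero_le_one, fun w => ?_⟩
  have h := second_moment (fun m ω => N [true] ω - p * m) (by
    intro m v _
    have e1 : N [true] (false :: v) = N [true] v := by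
      rw [N_cons, S_cons_cons]; simp
    have e2 : N [true] (false :: true :: v) = N [true] v + 1 := by
      rw [N_cons, N_cons, S_cons_cons, S_cons_cons]; simp [S]
    simp only [e1, e2]
    push_cast
    have := p_nonneg
    have := p_le_one
    nlinarith) w
  simp only [N_nil (show ([true] : List Bool) ≠ [] by simp)] at h
  rw [cst_b]
  refine h.trans (ENNReal.ofReal_le_ofReal ?_)
  push_cast
  linarith

lemma MB_ba (l : List Bool) (h : MB (false :: l)) : MB (true :: false :: l) := by
  obtain ⟨C, hC, hb⟩ := h
  refine ⟨3 * (1 + C + 1), by positivity, fun w => ?_⟩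
  set v' : List Bool := false :: l with hv'
  have hD := second_moment (fun _ ω => N (true :: v') ω - p * (N v' ω - S v' ω)) (by
    intro m v hv
    have e1 : N (true :: v') (false :: v) = N (true :: v') v := by
      rw [N_cons, S_cons_cons]; simp
    have e2 : N v' (false :: v) - S v' (false :: v) = N v' v := by
      rw [N_cons]; ring
    have e3 : N (true :: v') (false :: true :: v) = N (true :: v') v + S v' v := by
      rw [N_cons, N_cons, S_cons_cons, S_cons_cons]; simp
    have e4 : N v' (false :: true :: v) - S v' (false :: true :: v) = N v' v := by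
      rw [N_cons, N_cons, hv', S_cons_cons false true]; simp
    simp only [e1, e2, e3, e4]
    have h1 := p_nonneg
    have h2 := p_le_one
    have h3 := S_sq v' v
    have h4 := S_nonneg v' v
    have h5 := S_le_one v' v
    have key : (1 - p) * (N (true :: v') v - p * N v' v) ^ 2 +
        p * (N (true :: v') v + S v' v - p * N v' v) ^ 2 =
        (N (true :: v') v - p * (N v' v - S v' v)) ^ 2 + p * (1 - p) * S v' v ^ 2 := by ring
    rw [key, h3]
    have : p * (1 - p) * S v' v ≤ 1 := by
      have : p * (1 - p) ≤ 1 := by nlinarith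
      nlinarith [mul_nonneg h1 (sub_nonneg.2 h2)]
    linarith) w
  have hS0 : S v' [] = 0 := S_cons_nil _ _
  have hN0 : N v' [] = 0 := N_nil (by simp [hv'])
  have hN1 : N (true :: v') [] = 0 := N_nil (by simp)
  simp only [hS0, hN0, hN1] at hD
  have hbw := hb w
  have hpt : ∀ ω ∈ (substWord theta w).support,
      ENNReal.ofReal ((N (true :: v') ω - cst (true :: v') * w.length) ^ 2) ≤
      ENNReal.ofReal 3 * (ENNReal.ofReal ((N (true :: v') ω - p * (N v' ω - S v' ω)) ^ 2) +
        ENNReal.ofReal ((N v' ω - cst v' * w.length) ^ 2) + 1) := by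
    intro ω _
    rw [← ENNReal.ofReal_one, ← ENNReal.ofReal_add (sq_nonneg _) (sq_nonneg _),
      ← ENNReal.ofReal_add (by positivity) zero_le_one, ← ENNReal.ofReal_mul (by norm_num)]
    apply ENNReal.ofReal_le_ofReal
    rw [hv', cst_ba, ← hv']
    set X := N (true :: v') ω - p * (N v' ω - S v' ω)
    set Y := N v' ω - cst v' * w.length
    have e : N (true :: v') ω - p * cst v' * w.length = X + p * Y - p * S v' ω := by
      simp only [X, Y]; ring
    rw [e]
    have h1 := p_nonneg
    have h2 := p_le_one
    have h4 := S_nonneg v' ω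
    have h5 := S_le_one v' ω
    have q1 : (p * Y) ^ 2 ≤ Y ^ 2 := by
      rw [mul_pow]
      have : p ^ 2 ≤ 1 := by nlinarith
      nlinarith [sq_nonneg Y]
    have q2 : (p * S v' ω) ^ 2 ≤ 1 := by
      have h6 : 0 ≤ p * S v' ω := mul_nonneg h1 h4
      have h7 : p * S v' ω ≤ 1 := mul_le_one₀ h2 h4 h5
      nlinarith
    nlinarith [sq_nonneg (X - p * Y), sq_nonneg (X + p * S v' ω), sq_nonneg (p * Y + p * S v' ω)]
  refine (E_mono _ hpt).trans ?_
  rw [E_mul, E_add, E_add, E_const]
  calc ENNReal.ofReal 3 * (E (substWord theta w) (fun ω => ENNReal.ofReal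
          ((N (true :: v') ω - p * (N v' ω - S v' ω)) ^ 2)) +
          E (substWord theta w) (fun ω => ENNReal.ofReal ((N v' ω - cst v' * w.length) ^ 2)) + 1)
      ≤ ENNReal.ofReal 3 * (ENNReal.ofReal ((0 - p * (0 - 0)) ^ 2 + w.length) +
          ENNReal.ofReal (C * (w.length + 1)) + 1) := by gcongr
    _ = ENNReal.ofReal (3 * (((0 - p * (0 - 0)) ^ 2 + w.length) + (C * (w.length + 1)) + 1)) := by
        rw [← ENNReal.ofReal_one, ← ENNReal.ofReal_add (by positivity) (by positivity),
          ← ENNReal.ofReal_add (by positivity) zero_le_one, ← ENNReal.ofReal_mul (by norm_num)]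
    _ ≤ ENNReal.ofReal (3 * (1 + C + 1) * (w.length + 1)) := by
        apply ENNReal.ofReal_le_ofReal
        have : (0 : ℝ) ≤ w.length := by positivity
        nlinarith

lemma MB_aa (l : List Bool) (h : MB (false :: l)) (h' : MB (true :: false :: l)) :
    MB (false :: false :: l) := by
  obtain ⟨C, hC, hb⟩ := h
  obtain ⟨C', hC', hb'⟩ := h'
  refine ⟨3 * (C + C' + 1), by positivity, fun w => ?_⟩
  set v' : List Bool := false :: l with hv'
  have hpt : ∀ ω ∈ (substWord theta w).support,
      ENNReal.ofReal ((N (false :: v') ω - cst (false :: v') * w.length) ^ 2) ≤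
      ENNReal.ofReal 3 * (ENNReal.ofReal ((N v' ω - cst v' * w.length) ^ 2) +
        ENNReal.ofReal ((N (true :: v') ω - cst (true :: v') * w.length) ^ 2) + 1) := by
    intro ω _
    rw [← ENNReal.ofReal_one, ← ENNReal.ofReal_add (sq_nonneg _) (sq_nonneg _),
      ← ENNReal.ofReal_add (by positivity) zero_le_one, ← ENNReal.ofReal_mul (by norm_num)]
    apply ENNReal.ofReal_le_ofReal
    have hsplit := N_split false l ω
    rw [← hv'] at hsplit
    have e1 : cst (false :: v') = cst v' - cst (true :: v') := by
      rw [hv', cst_aa, cst_ba]; ring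
    set X := N v' ω - cst v' * w.length
    set Y := N (true :: v') ω - cst (true :: v') * w.length
    have e : N (false :: v') ω - cst (false :: v') * w.length = X - Y - S v' ω := by
      rw [e1]
      simp only [X, Y]
      linarith
    rw [e]
    have h4 := S_nonneg v' ω
    have h5 := S_le_one v' ω
    nlinarith [sq_nonneg (X + Y), sq_nonneg (X + S v' ω), sq_nonneg (Y - S v' ω)]
  refine (E_mono _ hpt).trans ?_
  rw [E_mul, E_add, E_add, E_const]
  calc ENNReal.ofReal 3 * (E (substWord theta w) (fun ω => ENNReal.ofReal
          ((N v' ω - cst v' * w.length) ^ 2)) +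
          E (substWord theta w) (fun ω => ENNReal.ofReal
            ((N (true :: v') ω - cst (true :: v') * w.length) ^ 2)) + 1)
      ≤ ENNReal.ofReal 3 * (ENNReal.ofReal (C * (w.length + 1)) +
          ENNReal.ofReal (C' * (w.length + 1)) + 1) := by
        gcongr
        · exact hb w
        · exact hb' w
    _ = ENNReal.ofReal (3 * ((C * (w.length + 1)) + (C' * (w.length + 1)) + 1)) := by
        rw [← ENNReal.ofReal_one, ← ENNReal.ofReal_add (by positivity) (by positivity),
          ← ENNReal.ofReal_add (by positivity) zero_le_one, ← ENNReal.ofReal_mul (by norm_num)]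
    _ ≤ ENNReal.ofReal (3 * (C + C' + 1) * (w.length + 1)) := by
        apply ENNReal.ofReal_le_ofReal
        have : (0 : ℝ) ≤ w.length := by positivity
        nlinarith

lemma MB_ab (l : List Bool) (h : MB (true :: l)) : MB (false :: true :: l) := by
  obtain ⟨C, hC, hb⟩ := h
  refine ⟨C, hC, fun w => ?_⟩
  refine le_trans (le_of_eq ?_) (hb w)
  refine E_congr _ fun ω hω => ?_
  have hg := good_of_mem hω
  have hsplit := N_split true l ω
  rw [good_N_bb hg, good_S_true hg] at hsplit
  rw [cst_ab, hsplit]
  ring_nf

lemma MB_bb (l : List Bool) : MB (true :: true :: l) := by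
  refine ⟨0, le_rfl, fun w => ?_⟩
  have : E (substWord theta w)
      (fun ω => ENNReal.ofReal ((N (true :: true :: l) ω - cst (true :: true :: l) * w.length) ^ 2)) =
      E (substWord theta w) (fun _ => 0) := by
    refine E_congr _ fun ω hω => ?_
    rw [good_N_bb (good_of_mem hω), cst_bb]
    simp
  rw [this, E_const]
  exact zero_le

theorem MB_all (x : Bool) (l : List Bool) : MB (x :: l) := by
  induction l generalizing x with
  | nil =>
    cases x
    · exact MB_a
    · exact MB_b
  | cons y l ih =>
    cases x <;> cases y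
    · exact MB_aa l (ih false) (MB_ba l (ih false))
    · exact MB_ab l (ih true)
    · exact MB_ba l (ih false)
    · exact MB_bb l

end Pool.Agent.GM
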