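import Mathlib
import Pool.Agent.GM.Moments

set_option autoImplicit false

open MeasureTheory Filter Topology ENNReal

namespace Pool.Agent.GM

/-- limit frequency -/
noncomputable def frq : List Bool → ℝ
  | [] => 0
  | x :: l => parryInit x * lw x l

lemma parryInit_le_one (x : Bool) : parryInit x ≤ 1 := by
  have := parryInit_sum
  have := parryInit_nonneg false
  have := parryInit_nonneg true
  cases x <;> linarith

lemma frq_nonneg (v : List Bool) : 0 ≤ frq v := by
  cases v with
  | nil => simp [frq]
  | cons x l => exact mul_nonneg (parryInit_nonneg _) (lw_nonneg _ _)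

lemma frq_le_one (v : List Bool) : frq v ≤ 1 := by
  cases v with
  | nil => simp [frq]
  | cons x l => exact mul_le_one₀ (parryInit_le_one _) (lw_nonneg _ _) (lw_le_one _ _)

lemma cst_eq (v : List Bool) : cst v = (1 + p) * frq v := by
  cases v <;> simp [cst, frq]

/-- squared deviation -/
noncomputable def G (v ω : List Bool) : ℝ≥0∞ :=
  ENNReal.ofReal ((N v ω / (ω.length : ℝ) - frq v) ^ 2)

lemma G_bound (x : Bool) (l : List Bool) : ∃ C : ℝ, 0 ≤ C ∧ ∀ w : List Bool, w ≠ [] →
    E (substWord theta w) (G (x :: l)) ≤ ENNReal.ofReal C * ENNReal.ofReal (1 / w.length) := by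
  obtain ⟨C1, hC1, h1⟩ := MB_all x l
  obtain ⟨C2, hC2, h2⟩ := MB_all true []
  refine ⟨4 * (C1 + C2), by positivity, fun w hw => ?_⟩
  have hm : (1 : ℝ) ≤ w.length := by
    have : 0 < w.length := List.length_pos_iff.2 hw
    exact_mod_cast this
  have hm0 : (0 : ℝ) < w.length := by linarith
  set v := x :: l with hv
  have hpt : ∀ ω ∈ (substWord theta w).support, G v ω ≤ ENNReal.ofReal (2 / (w.length : ℝ) ^ 2) *
      (ENNReal.ofReal ((N v ω - cst v * w.length) ^ 2) +
        ENNReal.ofReal ((N [true] ω - cst [true] * w.length) ^ 2)) := by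
    intro ω hω
    obtain ⟨hc1, hc2⟩ := count_of_mem hω
    have hL : (ω.length : ℝ) = w.length + N [true] ω := by
      rw [length_eq, hc1, N_b_count]; push_cast; ring
    have hNb : 0 ≤ N [true] ω := by unfold N; positivity
    rw [← ENNReal.ofReal_add (sq_nonneg _) (sq_nonneg _), ← ENNReal.ofReal_mul (by positivity)]
    apply ENNReal.ofReal_le_ofReal
    have hq0 := frq_nonneg v
    have hq1 := frq_le_one v
    have hce := cst_eq v
    have hcb := cst_b
    set m : ℝ := (w.length : ℝ)
    set L : ℝ := (ω.length : ℝ)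
    set X := N v ω - cst v * m
    set Y := N [true] ω - cst [true] * m
    have hLpos : 0 < L := by linarith
    have hmL : m ≤ L := by linarith
    have e : N v ω / L - frq v = (X - frq v * Y) / L := by
      rw [div_sub' hLpos.ne']
      congr 1
      simp only [X, Y]
      rw [hce, hcb, hL]
      ring
    rw [e, div_pow]
    have hsq : (X - frq v * Y) ^ 2 ≤ 2 * (X ^ 2 + Y ^ 2) := by
      have : (frq v * Y) ^ 2 ≤ Y ^ 2 := by
        rw [mul_pow]
        have : frq v ^ 2 ≤ 1 := by nlinarith
        nlinarith [sq_nonneg Y]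
      nlinarith [sq_nonneg (X + frq v * Y)]
    calc (X - frq v * Y) ^ 2 / L ^ 2 ≤ 2 * (X ^ 2 + Y ^ 2) / L ^ 2 := by gcongr
      _ ≤ 2 * (X ^ 2 + Y ^ 2) / m ^ 2 := by gcongr
      _ = 2 / m ^ 2 * (X ^ 2 + Y ^ 2) := by ring
  refine (E_mono _ hpt).trans ?_
  rw [E_mul, E_add]
  calc ENNReal.ofReal (2 / (w.length : ℝ) ^ 2) * (E (substWord theta w) (fun ω => ENNReal.ofReal
        ((N v ω - cst v * w.length) ^ 2)) + E (substWord theta w) (fun ω => ENNReal.ofReal
        ((N [true] ω - cst [true] * w.length) ^ 2)))
      ≤ ENNReal.ofReal (2 / (w.length : ℝ) ^ 2) * (ENNReal.ofReal (C1 * (w.length + 1)) +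
          ENNReal.ofReal (C2 * (w.length + 1))) := by
        gcongr
        · exact h1 w
        · exact h2 w
    _ = ENNReal.ofReal (2 / (w.length : ℝ) ^ 2 * (C1 * (w.length + 1) + C2 * (w.length + 1))) := by
        rw [← ENNReal.ofReal_add (by positivity) (by positivity), ← ENNReal.ofReal_mul (by positivity)]
    _ ≤ ENNReal.ofReal (4 * (C1 + C2) * (1 / w.length)) := by
        apply ENNReal.ofReal_le_ofReal
        rw [div_mul_eq_mul_div, mul_one_div, div_le_div_iff₀ (by positivity) hm0]
        have : (w.length : ℝ) + 1 ≤ 2 * w.length := by linarith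
        have h3 : 0 ≤ C1 + C2 := by positivity
        have h4 : 2 * (C1 * ((w.length : ℝ) + 1) + C2 * (w.length + 1)) ≤
            4 * (C1 + C2) * w.length := by nlinarith
        calc 2 * (C1 * ((w.length : ℝ) + 1) + C2 * (w.length + 1)) * w.length
            ≤ 4 * (C1 + C2) * w.length * w.length := by gcongr
          _ = 4 * (C1 + C2) * w.length ^ 2 := by ring
    _ = ENNReal.ofReal (4 * (C1 + C2)) * ENNReal.ofReal (1 / w.length) :=
        ENNReal.ofReal_mul (by positivity)

/-- contraction factor for the inverse length -/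
noncomputable def ρ : ℝ := 1 - p / 2

lemma rho_pos : 0 < ρ := by unfold ρ; linarith [p_lt_one]
lemma rho_lt_one : ρ < 1 := by unfold ρ; linarith [p_pos]

lemma E_Nb (w : List Bool) :
    E (substWord theta w) (fun ω => ENNReal.ofReal (N [true] ω)) = ENNReal.ofReal (p * w.length) := by
  induction w with
  | nil => rw [E_subst_nil, N_nil (by simp)]; simp
  | cons x w ih =>
    rw [E_subst_cons]
    have hN : ∀ ω, 0 ≤ N [true] ω := fun ω => by unfold N; positivity
    calc E (substWord theta w) (T fun ω => ENNReal.ofReal (N [true] ω))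
        = E (substWord theta w) (fun ω => ENNReal.ofReal (N [true] ω) + ENNReal.ofReal p) := by
          refine E_congr _ fun v _ => ?_
          rw [T_ofReal _ hN, ← ENNReal.ofReal_add (hN _) p_nonneg]
          congr 1
          rw [N_cons, N_cons, N_cons, S_cons_cons, S_cons_cons]
          simp [S]
          ring
      _ = ENNReal.ofReal (p * w.length) + ENNReal.ofReal p := by rw [E_add, E_const, ih]
      _ = ENNReal.ofReal (p * (x :: w).length) := by
          rw [← ENNReal.ofReal_add (mul_nonneg p_nonneg (by positivity)) p_nonneg]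
          congr 1
          rw [List.length_cons]; push_cast; ring

lemma E_inv (w : List Bool) (hw : w ≠ []) :
    E (substWord theta w) (fun ω => ENNReal.ofReal (1 / ω.length)) ≤
      ENNReal.ofReal ρ * ENNReal.ofReal (1 / w.length) := by
  have hm : (1 : ℝ) ≤ w.length := by
    have : 0 < w.length := List.length_pos_iff.2 hw
    exact_mod_cast this
  have hm0 : (0 : ℝ) < w.length := by linarith
  have hN : ∀ ω, 0 ≤ N [true] ω := fun ω => by unfold N; positivity
  have hpt : E (substWord theta w) (fun ω => ENNReal.ofReal (1 / ω.length) +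
      ENNReal.ofReal (1 / (2 * (w.length : ℝ) ^ 2)) * ENNReal.ofReal (N [true] ω)) ≤
      E (substWord theta w) (fun _ => ENNReal.ofReal (1 / w.length)) := by
    refine E_mono _ fun ω hω => ?_
    obtain ⟨hc1, hc2⟩ := count_of_mem hω
    have hL : (ω.length : ℝ) = w.length + N [true] ω := by
      rw [length_eq, hc1, N_b_count]; push_cast; ring
    have hNm : N [true] ω ≤ w.length := by
      rw [N_b_count]; exact_mod_cast hc2
    have hN0 := hN ω
    rw [← ENNReal.ofReal_mul (by positivity), ← ENNReal.ofReal_add (by positivity)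
      (mul_nonneg (by positivity) hN0)]
    apply ENNReal.ofReal_le_ofReal
    rw [hL]
    set m : ℝ := (w.length : ℝ)
    set n := N [true] ω
    have h1 : 1 / m - 1 / (m + n) = n / (m * (m + n)) := by
      field_simp
      ring
    have h2 : 1 / (2 * m ^ 2) * n ≤ n / (m * (m + n)) := by
      rw [one_div_mul_eq_div]
      apply div_le_div_of_nonneg_left hN0 (by positivity)
      nlinarith
    linarith
  rw [E_add, E_mul, E_Nb, E_const, ← ENNReal.ofReal_mul (by positivity)] at hpt
  have hsum : ENNReal.ofReal (1 / (w.length : ℝ)) = ENNReal.ofReal ρ * ENNReal.ofReal (1 / w.length) +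
      ENNReal.ofReal (1 / (2 * (w.length : ℝ) ^ 2) * (p * w.length)) := by
    rw [← ENNReal.ofReal_mul rho_pos.le, ← ENNReal.ofReal_add
      (mul_nonneg rho_pos.le (by positivity)) (mul_nonneg (by positivity)
        (mul_nonneg p_nonneg (by positivity)))]
    congr 1
    unfold ρ
    field_simp
    ring
  rw [hsum] at hpt
  exact (ENNReal.add_le_add_iff_right ENNReal.ofReal_ne_top).1 hpt

lemma length_le_of_mem {w ω : List Bool} (h : ω ∈ (substWord theta w).support) :
    w.length ≤ ω.length := by
  rw [length_eq ω, (count_of_mem h).1]; omega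

lemma pow_ne_nil (c : Bool) (n : ℕ) {w : List Bool} (h : w ∈ (substPow theta c n).support) :
    w ≠ [] := by
  induction n generalizing w with
  | zero =>
    rw [substPow, PMF.mem_support_pure_iff] at h
    rw [h]; simp
  | succ n ih =>
    rw [substPow, PMF.mem_support_bind_iff] at h
    obtain ⟨u, hu, hw⟩ := h
    have h1 := ih hu
    have h2 := length_le_of_mem hw
    intro h3
    rw [h3] at h2
    simp at h2
    exact h1 h2

lemma E_pow_inv (c : Bool) (n : ℕ) :
    E (substPow theta c n) (fun ω => ENNReal.ofReal (1 / ω.length)) ≤ ENNReal.ofReal ρ ^ n := by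
  induction n with
  | zero => rw [substPow, E_pure]; simp
  | succ n ih =>
    rw [substPow, E_bind]
    calc E (substPow theta c n) (fun a => E (substWord theta a) fun ω => ENNReal.ofReal (1 / ω.length))
        ≤ E (substPow theta c n) (fun a => ENNReal.ofReal ρ * ENNReal.ofReal (1 / a.length)) :=
          E_mono _ fun a ha => E_inv a (pow_ne_nil c n ha)
      _ = ENNReal.ofReal ρ * E (substPow theta c n) (fun a => ENNReal.ofReal (1 / a.length)) :=
          E_mul _ _ _
      _ ≤ ENNReal.ofReal ρ * ENNReal.ofReal ρ ^ n := by gcongr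
      _ = ENNReal.ofReal ρ ^ (n + 1) := by rw [pow_succ, mul_comm]

lemma E_pow_G (x : Bool) (l : List Bool) : ∃ C : ℝ≥0∞, C ≠ ⊤ ∧ ∀ (c : Bool) (n : ℕ),
    E (substPow theta c (n + 1)) (G (x :: l)) ≤ C * ENNReal.ofReal ρ ^ n := by
  obtain ⟨C, _, hC⟩ := G_bound x l
  refine ⟨ENNReal.ofReal C, ENNReal.ofReal_ne_top, fun c n => ?_⟩
  rw [substPow, E_bind]
  calc E (substPow theta c n) (fun a => E (substWord theta a) (G (x :: l)))
      ≤ E (substPow theta c n) (fun a => ENNReal.ofReal C * ENNReal.ofReal (1 / a.length)) :=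
        E_mono _ fun a ha => hC a (pow_ne_nil c n ha)
    _ = ENNReal.ofReal C * E (substPow theta c n) (fun a => ENNReal.ofReal (1 / a.length)) :=
        E_mul _ _ _
    _ ≤ ENNReal.ofReal C * ENNReal.ofReal ρ ^ n := by gcongr; exact E_pow_inv c n

/-- almost sure convergence -/
lemma ae_conv (x : Bool) (l : List Bool) (c : Bool) (Ω : Type) (mΩ : MeasurableSpace Ω)
    (P : Measure Ω) (W : ℕ → Ω → List Bool)
    (hW : ∀ (n : ℕ) (w : List Bool), MeasurableSet {ω | W n ω = w})
    (hlaw : ∀ (n : ℕ) (w : List Bool), P {ω | W n ω = w} = substPow theta c n w) :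
    ∀ᵐ ω ∂P, Tendsto (fun n => (occ (x :: l) (W n ω) : ℝ) / ((W n ω).length : ℝ)) atTop
      (𝓝 (frq (x :: l))) := by
  let _ : MeasurableSpace (List Bool) := ⊤
  have hmeas : ∀ n, Measurable (W n) := fun n =>
    measurable_to_countable' fun w => hW n w
  have hint : ∀ n, ∫⁻ ω, G (x :: l) (W n ω) ∂P = E (substPow theta c n) (G (x :: l)) := by
    intro n
    rw [← lintegral_map (f := G (x :: l)) (measurable_of_countable _) (hmeas n),
      lintegral_countable']
    unfold E
    congr 1
    ext w
    rw [Measure.map_apply (hmeas n) (MeasurableSpace.measurableSet_top), mul_comm, ← hlaw n w]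
    rfl
  obtain ⟨C, hC, hbound⟩ := E_pow_G x l
  have hsum : ∑' n, ∫⁻ ω, G (x :: l) (W (n + 1) ω) ∂P ≠ ⊤ := by
    have hle : ∑' n, ∫⁻ ω, G (x :: l) (W (n + 1) ω) ∂P ≤ ∑' n : ℕ, C * ENNReal.ofReal ρ ^ n :=
      ENNReal.tsum_le_tsum fun n => by rw [hint]; exact hbound c n
    have hfin : ∑' n : ℕ, C * ENNReal.ofReal ρ ^ n ≠ ⊤ := by
      rw [ENNReal.tsum_mul_left, ENNReal.tsum_geometric]
      apply ENNReal.mul_ne_top hC
      rw [ENNReal.inv_ne_top]
      intro h
      rw [tsub_eq_zero_iff_le] at h
      have : ENNReal.ofReal ρ < 1 := by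
        rw [← ENNReal.ofReal_one]
        exact (ENNReal.ofReal_lt_ofReal_iff zero_lt_one).2 rho_lt_one
      exact absurd h (not_le.2 this)
    exact ne_top_of_le_ne_top hfin hle
  have hGm : ∀ n, Measurable fun ω => G (x :: l) (W n ω) := fun n =>
    (measurable_of_countable (G (x :: l))).comp (hmeas n)
  rw [← lintegral_tsum (fun n => (hGm (n + 1)).aemeasurable)] at hsum
  have hae := ae_lt_top (Measurable.tsum fun n => hGm (n + 1)) hsum
  filter_upwards [hae] with ω hω
  have h1 := ENNReal.tendsto_atTop_zero_of_tsum_ne_top hω.ne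
  have h2 : Tendsto (fun n => ENNReal.ofReal
      ((N (x :: l) (W (n + 1) ω) / ((W (n + 1) ω).length : ℝ) - frq (x :: l)) ^ 2)) atTop (𝓝 0) := h1
  have h3 := (ENNReal.tendsto_toReal ENNReal.zero_ne_top).comp h2
  have h4 : Tendsto (fun n => (N (x :: l) (W (n + 1) ω) / ((W (n + 1) ω).length : ℝ) -
      frq (x :: l)) ^ 2) atTop (𝓝 0) := by
    refine h3.congr fun n => ?_
    simp only [Function.comp]
    exact ENNReal.toReal_ofReal (sq_nonneg _)
  have h5 : Tendsto (fun n => N (x :: l) (W (n + 1) ω) / ((W (n + 1) ω).length : ℝ) -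
      frq (x :: l)) atTop (𝓝 0) := by
    have h6 := h4.sqrt
    rw [Real.sqrt_zero] at h6
    simp_rw [Real.sqrt_sq_eq_abs] at h6
    exact tendsto_zero_iff_abs_tendsto_zero _ |>.2 h6
  have h7 := h5.add_const (frq (x :: l))
  simp only [sub_add_cancel, zero_add] at h7
  exact (tendsto_add_atTop_iff_nat 1).1 h7

/-! ### theta is a primitive random substitution -/

lemma blk_support : blk.support ⊆ {[false], [false, true]} := by
  intro u hu
  unfold blk at hu
  rw [PMF.mem_support_bind_iff] at hu
  obtain ⟨c, -, hu⟩ := hu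
  rw [PMF.mem_support_pure_iff] at hu
  rw [hu]
  cases c <;> simp [wd]

lemma theta_subst : IsRandomSubstitution theta := by
  intro c
  refine ⟨Set.Finite.subset (by simp) blk_support, fun h => ?_⟩
  have := blk_support h
  simp at this

lemma coin_apply (c : Bool) : coin c = ENNReal.ofReal (parryTrans false c) := by
  unfold coin
  rw [PMF.ofFintype_apply]

lemma blk_apply_a : blk [false] = ENNReal.ofReal (1 / Real.goldenRatio) := by
  unfold blk
  rw [PMF.bind_apply, tsum_bool]
  simp [wd, coin_apply, PMF.pure_apply, parryTrans]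

lemma blk_apply_ab : blk [false, true] = ENNReal.ofReal (1 / Real.goldenRatio ^ 2) := by
  unfold blk
  rw [PMF.bind_apply, tsum_bool]
  simp [wd, coin_apply, PMF.pure_apply, parryTrans]

lemma matrix_entry (β α : Bool) : substMatrix theta β α =
    1 / Real.goldenRatio * (([false] : List Bool).count β : ℝ) +
      1 / Real.goldenRatio ^ 2 * (([false, true] : List Bool).count β : ℝ) := by
  have hp := phi_pos
  unfold substMatrix
  rw [tsum_eq_sum (s := {[false], [false, true]})]
  · rw [Finset.sum_pair (by simp)]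
    change (blk [false]).toReal * _ + (blk [false, true]).toReal * _ = _
    rw [blk_apply_a, blk_apply_ab, ENNReal.toReal_ofReal (by positivity),
      ENNReal.toReal_ofReal (by positivity)]
  · intro w hw
    have : w ∉ blk.support := by
      intro h
      have := blk_support h
      simp only [Finset.mem_insert, Finset.mem_singleton] at hw
      exact hw this
    rw [PMF.mem_support_iff, not_not] at this
    change (blk w).toReal * _ = 0
    rw [this]
    simp

lemma theta_primitive : IsPrimitive theta := by
  have hp := phi_pos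
  refine ⟨1, fun β α => ?_⟩
  rw [pow_one, matrix_entry]
  cases β <;> simp <;> positivity

theorem theta_frequency : IsFrequencyMeasure theta parry := by
  refine ⟨inferInstance, shift_inv parry parry_isParry, ?_⟩
  intro c v hv Ω mΩ P _ W hW hlaw
  cases v with
  | nil => exact absurd rfl hv
  | cons x l =>
    rw [cylinder_parry parry parry_isParry]
    exact ae_conv x l c Ω mΩ P W hW hlaw

end Pool.Agent.GM
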